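import Mathlib
import Pool.Agent.X102.RC4

/-!
# MP_6ebaa4_an: logarithmic convexity of the functions `S_{n,c}`

Definitions (in `Pool.Agent.X102.RC4`):

* `S n c x` is `(1/π) ∫_0^π (1 + 4c x(1+cx) sin²(φ/2))^(-n/c) dφ` for `c ≠ 0` and
  `(1/π) ∫_0^π exp(-4nx sin²(φ/2)) dφ` for `c = 0`.
* `Iv c` is `[0,∞)` for `c ≥ 0` and `[0,-1/c]` for `c < 0`.

Proof. Put `X = x(1+cx)`, `p = X' = 1+2cx`, `E = p² = 1+4cX`, `A = 1+4(n+c)X`, `y = S'/S`. The
differential equation gives `X p y' = -P`, `P = X p y² + A y + 2np`. Where `p > 0` one has the trivial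
bound `-y ≤ 4n/p` (`sin² ≤ 1`), so `y` can only meet the larger root of `P`, and at such a point the
derivative of `P` is negative (`alg`: this reduces to `E √(E²+(4nX)²) + 4nX > E`). As `P(0) = 0` and
`P'(0) = -2n(n+c)`, `P` stays `≤ 0`, that is `y' ≥ 0` (the case `n + c = 0` is explicit). For `c < 0`
the function is symmetric about `-1/(2c)` and nonincreasing before it.
-/

set_option autoImplicit false

namespace Pool.Agent.Results.MP_6ebaa4_an.LogConvexity

open Pool.Agent.X102.RC

/-- For all admissible `n, c` the function `S_{n,c}` is positive and `log S_{n,c}` is convex on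
`I_c`. -/
theorem result (n c : ℝ) (hn : 0 < n) (hc : c < 0 → ∃ N : ℕ, 0 < N ∧ -n / c = N) :
    (∀ x ∈ Iv c, 0 < S n c x) ∧ ConvexOn ℝ (Iv c) (fun x => Real.log (S n c x)) :=
  main n c hn hc

end Pool.Agent.Results.MP_6ebaa4_an.LogConvexity
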